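import Pool.Agent.F5H.StmtsD

/-!
# F5H, row C_CHA: algebra of the frames
-/

set_option autoImplicit false

open MeasureTheory Complex ComplexConjugate

namespace Pool.Agent.F5H.BC.H3

open Pool.Agent.BTL Pool.Agent.F5S Pool.Agent.F5H Pool.Agent.F5H.BC

theorem a_pos {A : ℝ × ℝ × ℝ} {M : ℝ} (hM : 1 ≤ M) (hA : A ∈ KM M) : 0 < A.1 := by
  have h := (hA (1, 0)).1
  simp only [nr, qf] at h
  have h1 : 0 < 1 / M := by positivity
  have h2 : ((1 : ℝ) ^ 2 + 0 ^ 2) / M = 1 / M := by norm_num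
  rw [h2] at h
  nlinarith

theorem d_pos {A : ℝ × ℝ × ℝ} {M : ℝ} (hM : 1 ≤ M) (hA : A ∈ KM M) : 0 < disc A := by
  have ha := a_pos hM hA
  have h := (hA (-A.2.1, A.1)).1
  simp only [nr, qf] at h
  have h1 : 0 < ((-A.2.1) ^ 2 + A.1 ^ 2) / M := by positivity
  have h2 : A.1 * (-A.2.1) ^ 2 + 2 * A.2.1 * (-A.2.1) * A.1 + A.2.2 * A.1 ^ 2 = A.1 * disc A := by
    unfold disc
    ring
  rw [h2] at h
  exact (mul_pos_iff_of_pos_left ha).mp (lt_of_lt_of_le h1 h)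

theorem gA_re (A : ℝ × ℝ × ℝ) (x : ℝ × ℝ) : (gA A x).re = √A.1 * x.1 + A.2.1 / √A.1 * x.2 := rfl

theorem gA_im (A : ℝ × ℝ × ℝ) (x : ℝ × ℝ) : (gA A x).im = √(disc A / A.1) * x.2 := rfl

theorem gA_bl {A : ℝ × ℝ × ℝ} (ha : 0 < A.1) (hD : 0 < disc A) (x y : ℝ × ℝ) :
    (conj (gA A x) * gA A y).re = bl A x y := by
  rw [mul_re, conj_re, conj_im, gA_re, gA_re, gA_im, gA_im, bl]
  have h1 : √A.1 ^ 2 = A.1 := Real.sq_sqrt ha.le
  have h2 : √(disc A / A.1) ^ 2 = disc A / A.1 := Real.sq_sqrt (by positivity)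
  have h3 : 0 < √A.1 := Real.sqrt_pos.mpr ha
  have h4 : (A.2.1 / √A.1) * √A.1 = A.2.1 := div_mul_cancel₀ _ h3.ne'
  have h5 : (A.2.1 / √A.1) ^ 2 = A.2.1 ^ 2 / A.1 := by rw [div_pow, h1]
  have h6 : A.2.1 ^ 2 / A.1 + disc A / A.1 = A.2.2 := by
    unfold disc
    field_simp
    ring
  have h7 : (√A.1 * x.1 + A.2.1 / √A.1 * x.2) * (√A.1 * y.1 + A.2.1 / √A.1 * y.2) -
      -(√(disc A / A.1) * x.2) * (√(disc A / A.1) * y.2) =
      √A.1 ^ 2 * (x.1 * y.1) + ((A.2.1 / √A.1) * √A.1) * (x.1 * y.2 + x.2 * y.1) +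
        ((A.2.1 / √A.1) ^ 2 + √(disc A / A.1) ^ 2) * (x.2 * y.2) := by ring
  rw [h7, h1, h2, h4, h5, h6]

theorem bl_self (A : ℝ × ℝ × ℝ) (x : ℝ × ℝ) : bl A x x = qf A x := by
  unfold bl qf
  ring

theorem gA_sq {A : ℝ × ℝ × ℝ} (ha : 0 < A.1) (hD : 0 < disc A) (x : ℝ × ℝ) :
    ‖gA A x‖ ^ 2 = qf A x := by
  rw [← bl_self, ← gA_bl ha hD, ← Complex.normSq_eq_norm_sq, mul_comm, Complex.mul_conj]
  simp

theorem duality {A : ℝ × ℝ × ℝ} (ha : 0 < A.1) (hD : 0 < disc A) (k x : ℝ × ℝ) :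
    k.1 * x.1 + k.2 * x.2 = (conj (kA A k) * gA A x).re := by
  rw [mul_re, conj_re, conj_im, gA_re, gA_im]
  have h3 : 0 < √A.1 := Real.sqrt_pos.mpr ha
  have h5 : 0 < √(disc A) := Real.sqrt_pos.mpr hD
  have h4 : √(disc A / A.1) = √(disc A) / √A.1 := Real.sqrt_div hD.le _
  rw [h4]
  simp only [kA]
  field_simp
  ring

theorem nrm_le (x : ℝ × ℝ) : ‖x‖ ^ 2 ≤ nr x ∧ nr x ≤ 2 * ‖x‖ ^ 2 := by
  have h1 : ‖x‖ = max |x.1| |x.2| := rfl
  have h2 := sq_abs x.1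
  have h3 := sq_abs x.2
  have h4 := abs_nonneg x.1
  have h5 := abs_nonneg x.2
  unfold nr
  rcases max_choice |x.1| |x.2| with h | h
  · have h6 : |x.2| ≤ |x.1| := by
      rw [← h]
      exact le_max_right _ _
    rw [h1, h]
    constructor <;> nlinarith
  · have h6 : |x.1| ≤ |x.2| := by
      rw [← h]
      exact le_max_left _ _
    rw [h1, h]
    constructor <;> nlinarith

theorem size {A : ℝ × ℝ × ℝ} {M : ℝ} (hM : 1 ≤ M) (hA : A ∈ KM M) (x : ℝ × ℝ) :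
    ‖x‖ ≤ M * ‖gA A x‖ ∧ ‖gA A x‖ ≤ 2 * M * ‖x‖ := by
  have ha := a_pos hM hA
  have hD := d_pos hM hA
  have hM0 : 0 < M := by linarith
  obtain ⟨h1, h2⟩ := hA x
  rw [← gA_sq ha hD] at h1 h2
  obtain ⟨h3, h4⟩ := nrm_le x
  have h5 : nr x ≤ M * ‖gA A x‖ ^ 2 := by
    rw [div_le_iff₀ hM0] at h1
    linarith
  have h6 := norm_nonneg x
  have h7 := norm_nonneg (gA A x)
  constructor
  · apply le_of_sq_le_sq _ (by positivity)
    rw [mul_pow]
    have h8 : M * ‖gA A x‖ ^ 2 ≤ M ^ 2 * ‖gA A x‖ ^ 2 :=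
      mul_le_mul_of_nonneg_right (by nlinarith) (sq_nonneg _)
    linarith
  · apply le_of_sq_le_sq _ (by positivity)
    have h8 : M * nr x ≤ M * (2 * ‖x‖ ^ 2) := mul_le_mul_of_nonneg_left h4 hM0.le
    have h9 : M * (2 * ‖x‖ ^ 2) ≤ (2 * M * ‖x‖) ^ 2 := by
      have : (2 * M * ‖x‖) ^ 2 = 4 * M ^ 2 * ‖x‖ ^ 2 := by ring
      rw [this]
      have h10 : 2 * M ≤ 4 * M ^ 2 := by nlinarith
      nlinarith [sq_nonneg ‖x‖]
    linarith

theorem gA_surj {A : ℝ × ℝ × ℝ} (ha : 0 < A.1) (hD : 0 < disc A) (z : ℂ) :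
    ∃ x : ℝ × ℝ, gA A x = z := by
  have h3 : 0 < √A.1 := Real.sqrt_pos.mpr ha
  have h4 : 0 < √(disc A / A.1) := Real.sqrt_pos.mpr (by positivity)
  refine ⟨((z.re - A.2.1 / √A.1 * (z.im / √(disc A / A.1))) / √A.1, z.im / √(disc A / A.1)), ?_⟩
  apply Complex.ext
  · rw [gA_re]
    field_simp
    ring
  · rw [gA_im]
    field_simp

theorem size_k {A : ℝ × ℝ × ℝ} {M : ℝ} (hM : 1 ≤ M) (hA : A ∈ KM M) (k : ℝ × ℝ) :
    ‖k‖ ≤ 4 * M * ‖kA A k‖ ∧ ‖kA A k‖ ≤ 4 * M * ‖k‖ := by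
  have ha := a_pos hM hA
  have hD := d_pos hM hA
  have hM0 : 0 < M := by linarith
  have hre : ∀ x : ℝ × ℝ, |k.1 * x.1 + k.2 * x.2| ≤ ‖kA A k‖ * ‖gA A x‖ := by
    intro x
    rw [duality ha hD]
    calc |(conj (kA A k) * gA A x).re| ≤ ‖conj (kA A k) * gA A x‖ := Complex.abs_re_le_norm _
      _ = _ := by rw [norm_mul, RCLike.norm_conj]
  have hn := norm_nonneg (kA A k)
  constructor
  · have e1 : ‖((1 : ℝ), (0 : ℝ))‖ = 1 := by simp
    have e2 : ‖((0 : ℝ), (1 : ℝ))‖ = 1 := by simp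
    have h1 := hre (1, 0)
    have h2 := hre (0, 1)
    have h3 := (size hM hA (1, 0)).2
    have h4 := (size hM hA (0, 1)).2
    rw [e1, mul_one] at h3
    rw [e2, mul_one] at h4
    simp only [mul_one, mul_zero, add_zero, zero_add] at h1 h2
    have h5 : ‖kA A k‖ * ‖gA A (1, 0)‖ ≤ ‖kA A k‖ * (2 * M) := mul_le_mul_of_nonneg_left h3 hn
    have h6 : ‖kA A k‖ * ‖gA A (0, 1)‖ ≤ ‖kA A k‖ * (2 * M) := mul_le_mul_of_nonneg_left h4 hn
    have h7 : ‖kA A k‖ * (2 * M) ≤ 4 * M * ‖kA A k‖ := by nlinarith [mul_nonneg hM0.le hn]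
    have h8 : ‖k‖ = max |k.1| |k.2| := rfl
    rw [h8]
    exact max_le (by linarith) (by linarith)
  · obtain ⟨x, hx⟩ := gA_surj ha hD (kA A k)
    have h1 : ‖kA A k‖ ^ 2 = k.1 * x.1 + k.2 * x.2 := by
      rw [duality ha hD, hx, ← Complex.normSq_eq_norm_sq, mul_comm, Complex.mul_conj]
      simp
    have h2 := (size hM hA x).1
    rw [hx] at h2
    have h3 : k.1 * x.1 + k.2 * x.2 ≤ 2 * (‖k‖ * ‖x‖) := by
      have h4 : |k.1| ≤ ‖k‖ := norm_fst_le k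
      have h5 : |k.2| ≤ ‖k‖ := norm_snd_le k
      have h6 : |x.1| ≤ ‖x‖ := norm_fst_le x
      have h7 : |x.2| ≤ ‖x‖ := norm_snd_le x
      have h8 : k.1 * x.1 ≤ ‖k‖ * ‖x‖ := by
        calc k.1 * x.1 ≤ |k.1 * x.1| := le_abs_self _
          _ = |k.1| * |x.1| := abs_mul _ _
          _ ≤ _ := mul_le_mul h4 h6 (abs_nonneg _) (norm_nonneg _)
      have h9 : k.2 * x.2 ≤ ‖k‖ * ‖x‖ := by
        calc k.2 * x.2 ≤ |k.2 * x.2| := le_abs_self _
          _ = |k.2| * |x.2| := abs_mul _ _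
          _ ≤ _ := mul_le_mul h5 h7 (abs_nonneg _) (norm_nonneg _)
      linarith
    have h4 : ‖k‖ * ‖x‖ ≤ ‖k‖ * (M * ‖kA A k‖) := mul_le_mul_of_nonneg_left h2 (norm_nonneg _)
    have hk := norm_nonneg k
    rcases hn.eq_or_lt with h | h
    · rw [← h]
      positivity
    · have h5 : ‖kA A k‖ * ‖kA A k‖ ≤ (2 * M * ‖k‖) * ‖kA A k‖ := by nlinarith
      have h6 := le_of_mul_le_mul_right h5 h
      nlinarith [mul_nonneg hM0.le hk]

theorem gA_lin (A : ℝ × ℝ × ℝ) (x : ℝ × ℝ) :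
    gA A x = (x.1 : ℂ) * gA A (1, 0) + (x.2 : ℂ) * gA A (0, 1) := by
  apply Complex.ext
  · simp only [add_re, mul_re, ofReal_re, ofReal_im, gA_re, gA_im]
    ring
  · simp only [add_im, mul_im, ofReal_re, ofReal_im, gA_re, gA_im]
    ring

/-- the form of the chart -/
theorem form (A : ℝ × ℝ × ℝ) (lam : ℝ) (mu : ℂ) (x : ℝ × ℝ) :
    qf (Ach A lam mu) x = lam * normSq (gA A x + mu * conj (gA A x)) := by
  rw [gA_lin A x]
  unfold qf Ach
  generalize gA A (1, 0) = g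
  generalize gA A (0, 1) = h
  simp only [normSq_apply, add_re, add_im, mul_re, mul_im, conj_re, conj_im, ofReal_re, ofReal_im]
  ring

/-- the frame of the chart, in coordinates -/
theorem om_mul (mu : ℂ) (h : ‖mu‖ < 1) (z : ℂ) :
    om mu * (z + mu * conj z) = ⟨‖1 + mu‖ * z.re + 2 * mu.im * z.im / ‖1 + mu‖,
      (1 - normSq mu) * z.im / ‖1 + mu‖⟩ := by
  have h0 : (1 + mu : ℂ) ≠ 0 := by
    intro h1
    have h2 : mu = -1 := by linear_combination h1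
    rw [h2, norm_neg, norm_one] at h
    exact lt_irrefl _ h
  have hρ : 0 < ‖1 + mu‖ := norm_pos_iff.mpr h0
  have hsq : ‖1 + mu‖ ^ 2 = (1 + mu.re) ^ 2 + mu.im ^ 2 := by
    rw [← Complex.normSq_eq_norm_sq, normSq_apply]
    simp only [add_re, one_re, add_im, one_im, zero_add]
    ring
  unfold om
  generalize ‖1 + mu‖ = ρ at hρ hsq
  have hρC : (ρ : ℂ) ≠ 0 := by exact_mod_cast hρ.ne'
  have e : conj (1 + mu) / (ρ : ℂ) * (z + mu * conj z) =
      (1 / ρ : ℝ) * (conj (1 + mu) * (z + mu * conj z)) := by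
    push_cast
    field_simp
  rw [e]
  apply Complex.ext
  · rw [re_ofReal_mul]
    simp only [add_re, add_im, mul_re, mul_im, conj_re, conj_im, one_re, one_im]
    have : ρ * z.re + 2 * mu.im * z.im / ρ = 1 / ρ * (ρ ^ 2 * z.re + 2 * mu.im * z.im) := by
      field_simp
    rw [this, hsq]
    ring
  · rw [im_ofReal_mul]
    simp only [add_re, add_im, mul_re, mul_im, conj_re, conj_im, one_re, one_im, normSq_apply]
    ring

theorem frame {A : ℝ × ℝ × ℝ} (ha : 0 < A.1) (hD : 0 < disc A) {lam : ℝ} (hl : 0 < lam) {mu : ℂ}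
    (hmu : ‖mu‖ < 1) (x : ℝ × ℝ) :
    gA (Ach A lam mu) x = om mu * (√lam : ℂ) * (gA A x + mu * conj (gA A x)) := by
  have h0 : (1 + mu : ℂ) ≠ 0 := by
    intro h1
    have h2 : mu = -1 := by linear_combination h1
    rw [h2, norm_neg, norm_one] at hmu
    exact lt_irrefl _ hmu
  have hρ : 0 < ‖1 + mu‖ := norm_pos_iff.mpr h0
  have hρsq : ‖1 + mu‖ ^ 2 = (1 + mu.re) ^ 2 + mu.im ^ 2 := by
    rw [← Complex.normSq_eq_norm_sq, normSq_apply]
    simp only [add_re, one_re, add_im, one_im, zero_add]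
    ring
  have hN : 0 < 1 - normSq mu := by
    have h1 : normSq mu = ‖mu‖ ^ 2 := Complex.normSq_eq_norm_sq mu
    have h2 := norm_nonneg mu
    nlinarith
  have hsl : √lam ^ 2 = lam := Real.sq_sqrt hl.le
  have hsl0 : 0 < √lam := Real.sqrt_pos.mpr hl
  have hp0 : 0 < √A.1 := Real.sqrt_pos.mpr ha
  have hpp : √A.1 ^ 2 = A.1 := Real.sq_sqrt ha.le
  have hr0 : 0 < √(disc A / A.1) := Real.sqrt_pos.mpr (by positivity)
  -- entries of the chart
  have e1 : (gA A (1, 0)) = ⟨√A.1, 0⟩ := by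
    apply Complex.ext
    · rw [gA_re]; simp
    · rw [gA_im]; simp
  have e2 : (gA A (0, 1)) = ⟨A.2.1 / √A.1, √(disc A / A.1)⟩ := by
    apply Complex.ext
    · rw [gA_re]; simp
    · rw [gA_im]; simp
  have a1 : (Ach A lam mu).1 = (√lam * ‖1 + mu‖ * √A.1) ^ 2 := by
    unfold Ach
    rw [e1]
    rw [mul_pow, mul_pow, hsl, hρsq]
    simp only [normSq_apply, add_re, add_im, mul_re, mul_im, conj_re, conj_im]
    ring
  have a2 : (Ach A lam mu).2.1 = (√lam * ‖1 + mu‖ * √A.1) *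
      (√lam * (‖1 + mu‖ * (A.2.1 / √A.1) + 2 * mu.im * √(disc A / A.1) / ‖1 + mu‖)) := by
    have : (√lam * ‖1 + mu‖ * √A.1) *
      (√lam * (‖1 + mu‖ * (A.2.1 / √A.1) + 2 * mu.im * √(disc A / A.1) / ‖1 + mu‖)) =
        √lam ^ 2 * √A.1 * (‖1 + mu‖ ^ 2 * (A.2.1 / √A.1) + 2 * mu.im * √(disc A / A.1)) := by
      field_simp
    rw [this, hsl, hρsq]
    unfold Ach
    rw [e1, e2]
    simp only [add_re, add_im, mul_re, mul_im, conj_re, conj_im]
    ring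
  have a3 : disc (Ach A lam mu) =
      ((√lam * ‖1 + mu‖ * √A.1) * (√lam * ((1 - normSq mu) * √(disc A / A.1) / ‖1 + mu‖))) ^ 2 := by
    have : (√lam * ‖1 + mu‖ * √A.1) * (√lam * ((1 - normSq mu) * √(disc A / A.1) / ‖1 + mu‖)) =
        √lam ^ 2 * √A.1 * ((1 - normSq mu) * √(disc A / A.1)) := by
      field_simp
    have hd : disc (Ach A lam mu) =
        (Ach A lam mu).1 * (Ach A lam mu).2.2 - (Ach A lam mu).2.1 ^ 2 := rfl
    rw [this, hsl, hd]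
    unfold Ach
    rw [e1, e2]
    simp only [normSq_apply, add_re, add_im, mul_re, mul_im, conj_re, conj_im]
    ring
  have c0 : 0 < √lam * ‖1 + mu‖ * √A.1 := by positivity
  have s1 : √(Ach A lam mu).1 = √lam * ‖1 + mu‖ * √A.1 := by
    rw [a1, Real.sqrt_sq c0.le]
  have s2 : (Ach A lam mu).2.1 / √(Ach A lam mu).1 =
      √lam * (‖1 + mu‖ * (A.2.1 / √A.1) + 2 * mu.im * √(disc A / A.1) / ‖1 + mu‖) := by
    rw [s1, a2, mul_div_assoc, mul_comm, div_mul_cancel₀ _ c0.ne']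
  have s3 : √(disc (Ach A lam mu) / (Ach A lam mu).1) =
      √lam * ((1 - normSq mu) * √(disc A / A.1) / ‖1 + mu‖) := by
    rw [a3, a1, mul_pow, mul_comm, mul_div_assoc, div_self (by positivity), mul_one,
      Real.sqrt_sq (by positivity)]
  have hom := om_mul mu hmu (gA A x)
  have hR : om mu * (√lam : ℂ) * (gA A x + mu * conj (gA A x)) =
      (√lam : ℂ) * (om mu * (gA A x + mu * conj (gA A x))) := by ring
  rw [hR, hom]
  apply Complex.ext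
  · rw [gA_re, s2, s1, re_ofReal_mul, gA_re, gA_im]
    ring
  · rw [gA_im, s3, im_ofReal_mul, gA_im]
    ring

theorem chart_KM {A : ℝ × ℝ × ℝ} {M : ℝ} (hM : 1 ≤ M) (hA : A ∈ KM M) {lam : ℝ} {mu : ℂ}
    (h1 : 1 / 2 ≤ lam) (h2 : lam ≤ 2) (hmu : ‖mu‖ ≤ 1 / 8) : Ach A lam mu ∈ KM (4 * M) := by
  have ha := a_pos hM hA
  have hD := d_pos hM hA
  have hM0 : 0 < M := by linarith
  intro x
  obtain ⟨h3, h4⟩ := hA x
  rw [form]
  have h5 : ‖mu * conj (gA A x)‖ ≤ 1 / 8 * ‖gA A x‖ := by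
    rw [norm_mul, RCLike.norm_conj]
    exact mul_le_mul_of_nonneg_right hmu (norm_nonneg _)
  have h6 : ‖gA A x + mu * conj (gA A x)‖ ≤ 9 / 8 * ‖gA A x‖ := by
    have := norm_add_le (gA A x) (mu * conj (gA A x))
    linarith
  have h7 : 7 / 8 * ‖gA A x‖ ≤ ‖gA A x + mu * conj (gA A x)‖ := by
    have := norm_sub_le (gA A x + mu * conj (gA A x)) (mu * conj (gA A x))
    rw [add_sub_cancel_right] at this
    linarith
  rw [Complex.normSq_eq_norm_sq]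
  have h8 := gA_sq ha hD x
  have h9 := norm_nonneg (gA A x)
  have h10 := norm_nonneg (gA A x + mu * conj (gA A x))
  have h11 : ‖gA A x + mu * conj (gA A x)‖ ^ 2 ≤ 2 * qf A x := by
    rw [← h8]
    nlinarith
  have h12 : 1 / 2 * qf A x ≤ ‖gA A x + mu * conj (gA A x)‖ ^ 2 := by
    rw [← h8]
    nlinarith
  have hq : 0 ≤ qf A x := by rw [← h8]; positivity
  constructor
  · have h13 : nr x / (4 * M) = 1 / 4 * (nr x / M) := by
      field_simp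
    rw [h13]
    calc 1 / 4 * (nr x / M) ≤ 1 / 4 * qf A x := by linarith
      _ = 1 / 2 * (1 / 2 * qf A x) := by ring
      _ ≤ lam * ‖gA A x + mu * conj (gA A x)‖ ^ 2 :=
        mul_le_mul h1 h12 (by positivity) (by linarith)
  · calc lam * ‖gA A x + mu * conj (gA A x)‖ ^ 2 ≤ 2 * (2 * qf A x) :=
        mul_le_mul h2 h11 (by positivity) (by norm_num)
      _ ≤ 4 * M * nr x := by linarith

theorem cha : CHAStmt := by
  refine ⟨fun A M hM hA => ?_, fun A M lam mu hM hA hl hmu => ?_⟩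
  · have ha := a_pos hM hA
    have hD := d_pos hM hA
    exact ⟨ha, hD, gA_sq ha hD, gA_bl ha hD, duality ha hD, size hM hA, size_k hM hA⟩
  · exact ⟨form A lam mu, frame (a_pos hM hA) (d_pos hM hA) hl hmu,
      fun h1 h2 h3 => chart_KM hM hA h1 h2 h3⟩

end Pool.Agent.F5H.BC.H3
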