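import Pool.Agent.Helper30_F5K.StmtsR

/-!
MP_f5cbfa_nt, squad F5H, row R_PWT: the pointwise alternative.
-/

set_option autoImplicit false

open MeasureTheory Complex ComplexConjugate

namespace Pool.Agent.F5H.K2.H3

open Pool.Agent.Helper68_F5 Pool.Agent.F5H.W36 Pool.Agent.F5H.BC Pool.Agent.BTL Pool.Agent.F5S
  Pool.Agent.F5H Pool.Agent.F5H.K2.H30

theorem Gm_sc (q : ℝ) (e₁ e₂ e₃ H₁ H₂ H₃ : ℂ) :
    Gm e₁ e₂ e₃ ((q : ℂ) * H₁) ((q : ℂ) * H₂) ((q : ℂ) * H₃) = q ^ 3 * Gm e₁ e₂ e₃ H₁ H₂ H₃ := by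
  have hn : ∀ z : ℂ, ‖(q : ℂ) * z‖ ^ 2 = q ^ 2 * ‖z‖ ^ 2 := by
    intro z
    rw [norm_mul, mul_pow, Complex.norm_real, Real.norm_eq_abs, sq_abs]
  have ha : aa e₁ e₂ e₃ ((q : ℂ) * H₁) ((q : ℂ) * H₂) ((q : ℂ) * H₃) =
      q ^ 2 • aa e₁ e₂ e₃ H₁ H₂ H₃ := by
    unfold aa itp
    rw [hn, hn, hn, smul_add, smul_add, smul_smul, smul_smul, smul_smul]
    simp only [mul_div_assoc]
  have hb : ∀ (B : ℝ × ℝ × ℝ) (z w : ℂ), bf (q ^ 2 • B) z ((q : ℂ) * w) = q ^ 3 * bf B z w := by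
    intro B z w
    simp only [bf, Prod.smul_fst, Prod.smul_snd, smul_eq_mul, Complex.mul_re, Complex.mul_im,
      Complex.ofReal_re, Complex.ofReal_im]
    ring
  unfold Gm
  rw [ha, hb, hb]
  ring

theorem inz_mono {P S R₁ ω₁ ω₂ ω₁' ω₂' : ℝ} {H₁ H₂ H₃ e₁ e₂ e₃ : ℂ} {κ₁ κ₂ κ₃ : ℝ}
    {v₁ v₂ v₃ : ℂ} (h1 : ω₁ ≤ ω₁') (h2 : ω₂ ≤ ω₂')
    (h : InZ P S R₁ ω₁ ω₂ H₁ H₂ H₃ e₁ e₂ e₃ κ₁ κ₂ κ₃ v₁ v₂ v₃) :
    InZ P S R₁ ω₁' ω₂' H₁ H₂ H₃ e₁ e₂ e₃ κ₁ κ₂ κ₃ v₁ v₂ v₃ := by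
  obtain ⟨c, hc, a1, a2, a3, b, b1, b2, b3, b4, b5⟩ := h
  exact ⟨c, hc, a1, a2, a3, b, b1, b2, b3, le_trans b4 h1, le_trans b5 h2⟩

/-- the tangent vector with form `B` -/
theorem tv_le {T : ℝ} {H : Fin 3 → ℂ} {ep : Fin 3 → ℝ} {th : ℝ} (K : Fin 3 → ℂ) (B : ℝ × ℝ × ℝ)
    (c : ℝ) (h0 : |F5.H58.sp K (tv T H ep th (1, 0, 0) 0)| ≤ c)
    (h1 : |F5.H58.sp K (tv T H ep th (0, 1, 0) 0)| ≤ c)
    (h2 : |F5.H58.sp K (tv T H ep th (0, 0, 1) 0)| ≤ c) :
    |F5.H58.sp K (tv T H ep th B 0)| ≤ (|B.1| + |B.2.1| + |B.2.2|) * c := by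
  have e : ∀ l, tv T H ep th B 0 l = (B.1 : ℂ) * tv T H ep th (1, 0, 0) 0 l +
      (B.2.1 : ℂ) * tv T H ep th (0, 1, 0) 0 l + (B.2.2 : ℂ) * tv T H ep th (0, 0, 1) 0 l := by
    intro l
    have e1 : ((B.1, B.2.1, 0) : ℝ × ℝ × ℝ) = B.1 • ((1, 0, 0) : ℝ × ℝ × ℝ) +
        B.2.1 • ((0, 1, 0) : ℝ × ℝ × ℝ) := by ext <;> simp
    have e2 : B = (1 : ℝ) • ((B.1, B.2.1, 0) : ℝ × ℝ × ℝ) +
        B.2.2 • ((0, 0, 1) : ℝ × ℝ × ℝ) := by ext <;> simp
    have h1 := tv_lin (T := T) (H := H) (ep := ep) (th := th) B.1 B.2.1 (1, 0, 0) (0, 1, 0) 0 0 l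
    have h2 := tv_lin (T := T) (H := H) (ep := ep) (th := th) 1 B.2.2 (B.1, B.2.1, 0)
      (0, 0, 1) 0 0 l
    rw [← e1] at h1
    rw [← e2] at h2
    simp only [mul_zero, add_zero] at h1 h2
    rw [h2, h1]
    push_cast
    ring
  have hs : F5.H58.sp K (tv T H ep th B 0) = B.1 * F5.H58.sp K (tv T H ep th (1, 0, 0) 0) +
      B.2.1 * F5.H58.sp K (tv T H ep th (0, 1, 0) 0) +
      B.2.2 * F5.H58.sp K (tv T H ep th (0, 0, 1) 0) := by
    simp only [F5.H58.sp]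
    rw [Finset.mul_sum, Finset.mul_sum, Finset.mul_sum, ← Finset.sum_add_distrib,
      ← Finset.sum_add_distrib]
    refine Finset.sum_congr rfl fun l _ => ?_
    rw [e l]
    simp only [Complex.mul_re, Complex.add_re, Complex.add_im, Complex.mul_im, Complex.ofReal_re,
      Complex.ofReal_im, Complex.conj_re, Complex.conj_im]
    ring
  rw [hs]
  have a0 := mul_le_mul_of_nonneg_left h0 (abs_nonneg B.1)
  have a1 := mul_le_mul_of_nonneg_left h1 (abs_nonneg B.2.1)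
  have a2 := mul_le_mul_of_nonneg_left h2 (abs_nonneg B.2.2)
  rw [← abs_mul] at a0 a1 a2
  have b1 := abs_add_le (B.1 * F5.H58.sp K (tv T H ep th (1, 0, 0) 0) +
      B.2.1 * F5.H58.sp K (tv T H ep th (0, 1, 0) 0))
      (B.2.2 * F5.H58.sp K (tv T H ep th (0, 0, 1) 0))
  have b2 := abs_add_le (B.1 * F5.H58.sp K (tv T H ep th (1, 0, 0) 0))
      (B.2.1 * F5.H58.sp K (tv T H ep th (0, 1, 0) 0))
  linarith

theorem pwt (VK : VKPStmt) (DU : DUEStmt) : PWTStmt := by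
  classical
  obtain ⟨c, hc, hVK⟩ := VK
  refine ⟨200, le_rfl, ?_⟩
  intro T Q A V k0 del u z m₁ R₁ s h th P hA 𝓚 hne hK
  have hQ300 := P.hQ
  have hQ : 2 ≤ Q := le_trans (by norm_num) P.hQ
  have hQ1 : 1 ≤ Q := by linarith
  have hQ0 : 0 < Q := by linarith
  have hT := P.hT
  have hT0 : 0 < T := by linarith
  have hV2 : 1 ≤ V 2 := le_trans (one_le_pow₀ hQ1) P.v2
  have hV1 : 1 ≤ V 1 := le_trans hV2 P.v21
  have hV0 : 1 ≤ V 0 := le_trans hV1 P.v10
  have hV00 : 0 < V 0 := by linarith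
  have hV10 : 0 < V 1 := by linarith
  have hk0 := P.k1
  have hk00 : 0 < k0 := by linarith
  have hm1 : 1 ≤ m₁ := by rw [P.hm]; exact le_min hk0 hV1
  have hm0 : 0 < m₁ := by linarith
  have hmk : m₁ ≤ k0 := by rw [P.hm]; exact min_le_left _ _
  have hR := P.R1
  have hR0 : 0 < R₁ := by linarith
  have hRk : R₁ ≤ k0 := by rw [P.hR]; exact min_le_left _ _
  have hz1 := P.z1
  have hz0 : 0 < z := by linarith
  have hu0 := P.u0
  have hQ3 : Q ≤ Q ^ 3 := le_self_pow₀ hQ1 (by norm_num)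
  obtain ⟨k₁, hk₁⟩ := hne
  obtain ⟨hθ, hsz, hGd, _, _, _⟩ := hK k₁ hk₁
  have hep : ∀ l, sg s l ^ 2 = 1 := by
    intro l
    fin_cases l
    · show (if s.1 then (1 : ℝ) else -1) ^ 2 = 1
      split_ifs <;> norm_num
    · show (if s.2 then (1 : ℝ) else -1) ^ 2 = 1
      split_ifs <;> norm_num
    · show (1 : ℝ) ^ 2 = 1
      norm_num
  have F := fm hT hQ P.hQT hep hGd
  have hV2l : ∀ l, V 2 ≤ V l := by
    intro l
    fin_cases l
    · exact le_trans P.v21 P.v10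
    · exact P.v21
    · exact le_rfl
  have hVl0 : ∀ l, V l ≤ V 0 := by
    intro l
    fin_cases l
    · exact le_rfl
    · exact P.v10
    · exact le_trans P.v21 P.v10
  have h2l : ∀ l : Fin 3, l ≠ 2 → ‖hG A (r3 h) 2‖ ≤ Q ^ 2 * ‖hG A (r3 h) l‖ := by
    intro l _
    calc ‖hG A (r3 h) 2‖ ≤ Q * V 2 := (hsz 2).2
      _ ≤ Q * V l := mul_le_mul_of_nonneg_left (hV2l l) hQ0.le
      _ ≤ Q * (Q * ‖hG A (r3 h) l‖) := mul_le_mul_of_nonneg_left (hsz l).1 hQ0.le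
      _ = _ := by ring
  have hkn : ∀ k ∈ 𝓚, ∀ l, ‖kG A (r3 k) l‖ ≤ Q ^ 3 * k0 := by
    intro k hk l
    obtain ⟨_, _, _, c3, _, _⟩ := hK k hk
    have h2 := norm_kA_le (by linarith) hA (cp (r3 k) l)
    have h3 := norm_cp_le (r3 k) l
    calc ‖kG A (r3 k) l‖ ≤ 2 * Q * ‖cp (r3 k) l‖ := h2
      _ ≤ Q * Q * (Q * k0) := by
          refine mul_le_mul ?_ (le_trans h3 c3) (norm_nonneg _) (by positivity)
          exact mul_le_mul_of_nonneg_right hQ hQ0.le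
      _ = Q ^ 3 * k0 := by ring
  have hI : ∀ k ∈ 𝓚, ∀ l,
      |(conj (kG A (r3 k) l) * (I * wG T (hG A (r3 h)) (sg s) th l)).re| ≤ Q ^ 3 * k0 := by
    intro k hk l
    rw [sp_eq]
    refine le_trans (abs_sp_le _ _) ?_
    rw [norm_mul, Complex.norm_I, one_mul, F.hw l, mul_one]
    exact hkn k hk l
  have hI' : ∀ k ∈ 𝓚, ∀ l,
      |(conj (kG A (r3 k) l) * (I * wG T (hG A (r3 h)) (sg s) th l)).re| ≤ Q * V l := by
    intro k hk l
    obtain ⟨_, _, _, _, bd, _⟩ := hK k hk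
    exact bd.2.2.2.2.2 l
  have hIm : ∀ k ∈ 𝓚,
      |(conj (kG A (r3 k) 1) * (I * wG T (hG A (r3 h)) (sg s) th 1)).re| ≤ Q ^ 3 * m₁ := by
    intro k hk
    rcases le_total k0 (V 1) with h | h
    · rw [P.hm, min_eq_left h]; exact hI k hk 1
    · rw [P.hm, min_eq_right h]
      exact le_trans (hI' k hk 1) (mul_le_mul_of_nonneg_right hQ3 hV10.le)
  obtain ⟨al, hal⟩ : ∃ al : ℝ, al = 1 / (2 * m₁) := ⟨_, rfl⟩
  have hal0 : 0 < al := by rw [hal]; positivity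
  have hal1 : al ≤ 1 / 2 := by
    rw [hal]
    exact one_div_le_one_div_of_le (by norm_num) (by linarith)
  have e2 : wG T (hG A (r3 h)) (sg s) th 2 = ee th := by rw [wG, if_pos rfl, ee_eq]
  have hpt := pt_of hQ hT F
  rw [e2] at hpt
  have key : ∀ be₀ be₁ : ℝ, be₀ ≠ 0 → |be₀| ≤ 1 / 2 → |be₁| ≤ 1 / 2 →
      (∀ k ∈ 𝓚, |be₀ * (conj (kG A (r3 k) 0) * (I * wG T (hG A (r3 h)) (sg s) th 0)).re +
        be₁ * (conj (kG A (r3 k) 1) * (I * wG T (hG A (r3 h)) (sg s) th 1)).re| ≤ Q ^ 3) →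
      ∃ Z : Finset Z6, (𝓚.card : ℝ) ≤ 300 ^ 6 * Q ^ 30 * (1 / (R₁ * (al * |be₀|))) * Z.card ∧
      ∀ t ∈ Z, InZ (Q ^ 8) ((Q * T) ^ 2) (Q * R₁) (Q ^ 3 * (|be₀| * V 0))
        (Q ^ 3 * ((|be₁| + al) * V 1)) (gQ Q A h.1) (gQ Q A h.2.1) (gQ Q A h.2.2)
        (wG T (hG A (r3 h)) (sg s) th 0) (wG T (hG A (r3 h)) (sg s) th 1)
        (ee th) (rh T (hG A (r3 h) 0) / T) (rh T (hG A (r3 h) 1) / T)
        (rh T (hG A (r3 h) 2) / T) (gQ Q A t.1) (gQ Q A t.2.1) (gQ Q A t.2.2) := by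
    intro be₀ be₁ hb0 hb1 hb2 hb3
    obtain ⟨_, Z, z1, z2⟩ := DU T Q A V s h th R₁ al be₀ be₁ hQ hT P.hQT hA hV2 P.v21 P.v10 P.v0
      hsz hGd hR (le_trans hRk P.kV) hal0 (by linarith) hb0 (by linarith) (by linarith)
      (𝓚 : Set Z6) (by
        intro k hk
        have hk : k ∈ 𝓚 := hk
        obtain ⟨_, _, _, _, bd, _⟩ := hK k hk
        obtain ⟨b1, b2, _, b4, b5, _⟩ := bd
        refine ⟨?_, ?_, ?_, le_trans b4 hQ3, ?_, hb3 k hk⟩
        · refine le_trans b5 ?_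
          calc Q / k0 * T = Q * (T / k0) := by ring
            _ ≤ Q ^ 3 * (T / R₁) := mul_le_mul hQ3
                (div_le_div_of_nonneg_left hT0.le hR0 hRk) (by positivity) (by positivity)
        · exact le_trans b1 (mul_le_mul_of_nonneg_right hQ3 hT0.le)
        · exact le_trans b2 (mul_le_mul_of_nonneg_right hQ3 hT0.le)
        · rw [abs_mul, abs_of_pos hal0, hal]
          calc 1 / (2 * m₁) *
                |(conj (kG A (r3 k) 1) * (I * wG T (hG A (r3 h)) (sg s) th 1)).re| ≤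
              1 / (2 * m₁) * (Q ^ 3 * m₁) := mul_le_mul_of_nonneg_left (hIm k hk) (by positivity)
            _ = Q ^ 3 / 2 := by field_simp
            _ ≤ Q ^ 3 := by linarith)
    refine ⟨Z, ?_, ?_⟩
    · rw [Set.ncard_coe_finset] at z1
      exact z1
    · intro t ht
      have := z2 t ht
      rw [e2] at this
      exact this
  have hω₂ : ∀ y b : ℝ, 0 < y → y ≤ k0 → |b| ≤ 1 / (2 * y) →
      Q ^ 3 * ((|b| + al) * V 1) ≤ Q ^ 3 * max 1 (V 1 / y) := by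
    intro y b hy hyk hb
    refine mul_le_mul_of_nonneg_left ?_ (by positivity)
    have h1 : |b| * V 1 ≤ V 1 / y / 2 := by
      calc |b| * V 1 ≤ 1 / (2 * y) * V 1 := mul_le_mul_of_nonneg_right hb hV10.le
        _ = V 1 / y / 2 := by field_simp
    have h2 : al * V 1 ≤ max 1 (V 1 / y) / 2 := by
      rw [hal, P.hm]
      rcases le_total k0 (V 1) with h | h
      · rw [min_eq_left h]
        have h3 : V 1 / k0 ≤ V 1 / y := div_le_div_of_nonneg_left hV10.le hy hyk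
        have h4 : 1 / (2 * k0) * V 1 = V 1 / k0 / 2 := by field_simp
        have := le_max_right 1 (V 1 / y)
        linarith
      · rw [min_eq_right h]
        have h4 : 1 / (2 * V 1) * V 1 = 1 / 2 := by field_simp
        have := le_max_left 1 (V 1 / y)
        linarith
    have := le_max_right 1 (V 1 / y)
    linarith
  have hω₁ : ∀ y b : ℝ, 0 < y → |b| ≤ 1 / (2 * y) →
      Q ^ 3 * (|b| * V 0) ≤ Q ^ 3 * max 1 (V 0 / y) := by
    intro y b hy hb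
    refine mul_le_mul_of_nonneg_left ?_ (by positivity)
    have h1 : |b| * V 0 ≤ V 0 / y / 2 := by
      calc |b| * V 0 ≤ 1 / (2 * y) * V 0 := mul_le_mul_of_nonneg_right hb hV00.le
        _ = V 0 / y / 2 := by field_simp
    have h2 : 0 ≤ V 0 / y := by positivity
    have := le_max_right 1 (V 0 / y)
    linarith
  obtain ⟨B, d, hd2, hkph, hB, hd, hgm⟩ := hVK T Q hQ hT P.hQT (hG A (r3 h)) (sg s) th (V 0) hep
    hGd (fun l => le_trans (hsz l).2 (mul_le_mul_of_nonneg_left (hVl0 l) hQ0.le)) hV0 P.v0 h2l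
  rw [e2] at hgm
  obtain ⟨G, hG'⟩ : ∃ G, G = Gm (wG T (hG A (r3 h)) (sg s) th 0)
    (wG T (hG A (r3 h)) (sg s) th 1) (ee th) (hG A (r3 h) 0) (hG A (r3 h) 1)
    (hG A (r3 h) 2) := ⟨_, rfl⟩
  rw [← hG'] at hgm
  have hQc : Q ^ c ≤ Q ^ 100 := pow_le_pow_right₀ hQ1 hc
  have hQc1 : 1 ≤ Q ^ c := one_le_pow₀ hQ1
  rcases le_or_gt |G| (u ^ 3 * V 0 ^ 3) with hle | hgt
  · right
    obtain ⟨Z, z1, z2⟩ := key (1 / (2 * k0)) 0 (by positivity) (by
        rw [abs_of_pos (by positivity)]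
        exact one_div_le_one_div_of_le (by norm_num) (by linarith)) (by
        rw [abs_zero]; norm_num) (by
        intro k hk
        rw [zero_mul, add_zero, abs_mul, abs_of_pos (by positivity : 0 < 1 / (2 * k0))]
        calc 1 / (2 * k0) *
              |(conj (kG A (r3 k) 0) * (I * wG T (hG A (r3 h)) (sg s) th 0)).re| ≤
            1 / (2 * k0) * (Q ^ 3 * k0) := mul_le_mul_of_nonneg_left (hI k hk 0) (by positivity)
          _ = Q ^ 3 / 2 := by field_simp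
          _ ≤ Q ^ 3 := by
            have : 0 < Q ^ 3 := by positivity
            linarith)
    refine ⟨hθ, wG T (hG A (r3 h)) (sg s) th 0, wG T (hG A (r3 h)) (sg s) th 1,
      rh T (hG A (r3 h) 0) / T, rh T (hG A (r3 h) 1) / T, rh T (hG A (r3 h) 2) / T, hpt, ?_, Z,
      ?_, ?_⟩
    · show |Gm (wG T (hG A (r3 h)) (sg s) th 0) (wG T (hG A (r3 h)) (sg s) th 1) (ee th)
        ((Q : ℂ) * hG A (r3 h) 0) ((Q : ℂ) * hG A (r3 h) 1) ((Q : ℂ) * hG A (r3 h) 2)| ≤ _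
      rw [Gm_sc, ← hG', abs_mul, abs_of_pos (by positivity)]
      calc Q ^ 3 * |G| ≤ Q ^ 3 * (u ^ 3 * V 0 ^ 3) := mul_le_mul_of_nonneg_left hle (by positivity)
        _ ≤ Q ^ 6 * (u ^ 3 * V 0 ^ 3) := by
            refine mul_le_mul_of_nonneg_right (pow_le_pow_right₀ hQ1 (by norm_num)) ?_
            positivity
        _ = _ := by ring
    · refine le_trans z1 ?_
      refine mul_le_mul_of_nonneg_right ?_ (Nat.cast_nonneg _)
      rw [abs_of_pos (by positivity : 0 < 1 / (2 * k0)), hal]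
      have e : 1 / (R₁ * (1 / (2 * m₁) * (1 / (2 * k0)))) = 4 * (k0 * m₁ / R₁) := by
        field_simp
        norm_num
      rw [e]
      calc 300 ^ 6 * Q ^ 30 * (4 * (k0 * m₁ / R₁)) ≤ Q * Q ^ 30 * (Q * (k0 * m₁ / R₁)) := by
            refine mul_le_mul (mul_le_mul_of_nonneg_right hQ300 (by positivity)) ?_ (by positivity)
              (by positivity)
            refine mul_le_mul_of_nonneg_right ?_ (by positivity)
            exact le_trans (by norm_num) hQ300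
        _ = Q ^ 32 * (k0 * m₁ / R₁) := by ring
        _ ≤ _ := mul_le_mul_of_nonneg_right (pow_le_pow_right₀ hQ1 (by norm_num)) (by positivity)
    · intro t ht
      refine inz_mono ?_ ?_ (z2 t ht)
      · exact hω₁ k0 _ hk00 (by rw [abs_of_pos (by positivity)])
      · exact hω₂ k0 _ hk00 le_rfl (by rw [abs_zero]; positivity)
  · left
    obtain ⟨N, hN⟩ : ∃ N, N = 2 * Q ^ c * V 0 ^ 2 * z := ⟨_, rfl⟩
    have hN0 : 0 < N := by rw [hN]; positivity
    -- the lower bound of `d 0`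
    have hT12 : T ^ (1 / 2 : ℝ) * T ^ (-(1 / 2) : ℝ) = 1 := by
      rw [← Real.rpow_add hT0]; norm_num
    have herr : Q ^ c * V 0 ^ 3 * T ^ (-(1 / 2) : ℝ) ≤ u ^ 3 * V 0 ^ 3 := by
      have hTp : 0 < T ^ (-(1 / 2) : ℝ) := Real.rpow_pos_of_pos hT0 _
      have h1 : Q ^ c ≤ u ^ 3 * T ^ (1 / 2 : ℝ) :=
        le_trans (le_trans hQc (pow_le_pow_right₀ hQ1 (by norm_num))) P.uT
      calc Q ^ c * V 0 ^ 3 * T ^ (-(1 / 2) : ℝ) ≤
          u ^ 3 * T ^ (1 / 2 : ℝ) * V 0 ^ 3 * T ^ (-(1 / 2) : ℝ) := by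
            refine mul_le_mul_of_nonneg_right ?_ hTp.le
            exact mul_le_mul_of_nonneg_right h1 (by positivity)
        _ = u ^ 3 * V 0 ^ 3 * (T ^ (1 / 2 : ℝ) * T ^ (-(1 / 2) : ℝ)) := by ring
        _ = _ := by rw [hT12, mul_one]
    have hn0 : |nG T (hG A (r3 h)) (sg s) th 0| ≤ Q * V 0 := by
      rw [nG, wd_eq]
      refine le_trans (abs_wd_le _ _) ?_
      rw [F.hw 0, one_mul]
      exact (hsz 0).2
    have hd0 : u ^ 3 * V 0 ^ 2 ≤ Q * |d 0| := by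
      have h1 : 2 * |G| ≤ |nG T (hG A (r3 h)) (sg s) th 0 * d 0| + u ^ 3 * V 0 ^ 3 := by
        have h2 := abs_sub_abs_le_abs_sub (2 * G) (-(nG T (hG A (r3 h)) (sg s) th 0 * d 0))
        rw [abs_neg, sub_neg_eq_add, add_comm (2 * G), abs_mul 2, abs_of_pos (by norm_num :
          (0 : ℝ) < 2)] at h2
        linarith
      have h3 : |nG T (hG A (r3 h)) (sg s) th 0 * d 0| ≤ Q * V 0 * |d 0| := by
        rw [abs_mul]
        exact mul_le_mul_of_nonneg_right hn0 (abs_nonneg _)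
      have h4 : V 0 * (u ^ 3 * V 0 ^ 2) ≤ V 0 * (Q * |d 0|) := by
        calc V 0 * (u ^ 3 * V 0 ^ 2) = u ^ 3 * V 0 ^ 3 := by ring
          _ ≤ Q * V 0 * |d 0| := by linarith
          _ = _ := by ring
      exact le_of_mul_le_mul_left h4 hV00
    have hd00 : 0 < |d 0| := by
      have h1 : 0 < u ^ 3 * V 0 ^ 2 := by positivity
      by_contra h2
      have h3 : |d 0| = 0 := le_antisymm (not_lt.1 h2) (abs_nonneg _)
      rw [h3, mul_zero] at hd0
      linarith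
    have hd0' : d 0 ≠ 0 := abs_pos.1 hd00
    have hbz : ∀ l, |d l / N| ≤ 1 / (2 * z) := by
      intro l
      rw [abs_div, abs_of_pos hN0, div_le_div_iff₀ hN0 (by positivity), hN]
      calc |d l| * (2 * z) ≤ Q ^ c * V 0 ^ 2 * (2 * z) :=
            mul_le_mul_of_nonneg_right (hd l) (by positivity)
        _ = _ := by ring
    have hz2 : 1 / (2 * z) ≤ 1 / 2 := one_div_le_one_div_of_le (by norm_num) (by linarith)
    obtain ⟨Z, z1, z2⟩ := key (d 0 / N) (d 1 / N) (div_ne_zero hd0' hN0.ne')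
      (le_trans (hbz 0) hz2) (le_trans (hbz 1) hz2) (by
        intro k hk
        obtain ⟨_, _, _, _, bd, hkp⟩ := hK k hk
        obtain ⟨b1, b2, b3, _, _, _⟩ := bd
        have h1 := hkph (kG A (r3 k))
        rw [Fin.sum_univ_three, hd2, zero_mul, add_zero] at h1
        have h2 := tv_le (kG A (r3 k)) B (Q * T) b1 b2 b3
        have h3 : (|B.1| + |B.2.1| + |B.2.2|) * (Q * T) ≤ Q * (Q ^ c * V 0 ^ 2) := by
          calc (|B.1| + |B.2.1| + |B.2.2|) * (Q * T) =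
              Q * ((|B.1| + |B.2.1| + |B.2.2|) * T) := by ring
            _ ≤ _ := mul_le_mul_of_nonneg_left hB hQ0.le
        have e3 : d 0 / N * (conj (kG A (r3 k) 0) * (I * wG T (hG A (r3 h)) (sg s) th 0)).re +
            d 1 / N * (conj (kG A (r3 k) 1) * (I * wG T (hG A (r3 h)) (sg s) th 1)).re =
            (kph T (hG A (r3 h)) (sg s) th (kG A (r3 k)) -
              F5.H58.sp (kG A (r3 k)) (tv T (hG A (r3 h)) (sg s) th B 0)) / N := by
          rw [h1]; ring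
        rw [e3, abs_div, abs_of_pos hN0, div_le_iff₀ hN0]
        have h4 := abs_sub (kph T (hG A (r3 h)) (sg s) th (kG A (r3 k)))
          (F5.H58.sp (kG A (r3 k)) (tv T (hG A (r3 h)) (sg s) th B 0))
        have h5 : Q * (del * k0 * V 0 ^ 2) ≤ Q ^ 3 * (Q ^ c * V 0 ^ 2 * z) := by
          calc Q * (del * k0 * V 0 ^ 2) ≤ Q ^ 3 * (z * V 0 ^ 2) := by
                refine mul_le_mul hQ3 ?_ ?_ (by positivity)
                · exact mul_le_mul_of_nonneg_right P.zdel (by positivity)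
                · have := P.dk
                  positivity
            _ = Q ^ 3 * (1 * V 0 ^ 2 * z) := by ring
            _ ≤ _ := by
                refine mul_le_mul_of_nonneg_left ?_ (by positivity)
                refine mul_le_mul_of_nonneg_right ?_ hz0.le
                exact mul_le_mul_of_nonneg_right hQc1 (by positivity)
        have h6 : Q * (Q ^ c * V 0 ^ 2) ≤ Q ^ 3 * (Q ^ c * V 0 ^ 2 * z) := by
          refine mul_le_mul hQ3 ?_ (by positivity) (by positivity)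
          exact le_mul_of_one_le_right (by positivity) hz1
        have e4 : Q ^ 3 * N = Q ^ 3 * (Q ^ c * V 0 ^ 2 * z) + Q ^ 3 * (Q ^ c * V 0 ^ 2 * z) := by
          rw [hN]; ring
        rw [e4]
        linarith)
    refine ⟨Z, ?_, ?_⟩
    · refine le_trans z1 ?_
      refine mul_le_mul_of_nonneg_right ?_ (Nat.cast_nonneg _)
      have h1 : u ^ 3 / (2 * Q ^ (c + 1) * z) ≤ |d 0 / N| := by
        rw [abs_div, abs_of_pos hN0, div_le_div_iff₀ (by positivity) hN0, hN]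
        calc u ^ 3 * (2 * Q ^ c * V 0 ^ 2 * z) = (u ^ 3 * V 0 ^ 2) * (2 * Q ^ c * z) := by ring
          _ ≤ (Q * |d 0|) * (2 * Q ^ c * z) := mul_le_mul_of_nonneg_right hd0 (by positivity)
          _ = _ := by ring
      have h2 : 1 / (R₁ * (al * |d 0 / N|)) ≤
          1 / (R₁ * (al * (u ^ 3 / (2 * Q ^ (c + 1) * z)))) := by
        refine one_div_le_one_div_of_le (by positivity) ?_
        refine mul_le_mul_of_nonneg_left ?_ hR0.le
        exact mul_le_mul_of_nonneg_left h1 hal0.le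
      have e : 1 / (R₁ * (al * (u ^ 3 / (2 * Q ^ (c + 1) * z)))) =
          4 * Q ^ (c + 1) * (z * m₁ / (R₁ * u ^ 3)) := by
        rw [hal]
        field_simp
        norm_num
      rw [e] at h2
      calc 300 ^ 6 * Q ^ 30 * (1 / (R₁ * (al * |d 0 / N|))) ≤
          Q * Q ^ 30 * (Q * Q ^ (c + 1) * (z * m₁ / (R₁ * u ^ 3))) := by
            refine mul_le_mul (mul_le_mul_of_nonneg_right hQ300 (by positivity)) ?_ (by positivity)
              (by positivity)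
            refine le_trans h2 ?_
            refine mul_le_mul_of_nonneg_right ?_ (by positivity)
            refine mul_le_mul_of_nonneg_right ?_ (by positivity)
            exact le_trans (by norm_num) hQ300
        _ = Q ^ (c + 33) * (z * m₁ / (R₁ * u ^ 3)) := by ring
        _ ≤ _ := mul_le_mul_of_nonneg_right (pow_le_pow_right₀ hQ1 (by omega)) (by positivity)
    · intro t ht
      refine ⟨hθ, wG T (hG A (r3 h)) (sg s) th 0, wG T (hG A (r3 h)) (sg s) th 1,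
        rh T (hG A (r3 h) 0) / T, rh T (hG A (r3 h) 1) / T, rh T (hG A (r3 h) 2) / T, hpt, ?_⟩
      refine inz_mono ?_ ?_ (z2 t ht)
      · exact hω₁ z _ hz0 (hbz 0)
      · exact hω₂ z _ hz0 P.zk (hbz 1)

end Pool.Agent.F5H.K2.H3
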