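import Pool.Agent.Helper3_F5H.PWT
import Pool.Agent.Helper18_F5H.K_VKP
import Pool.Agent.Helper30_F5K.Due

/-!
MP_f5cbfa_nt, squad F5H, row R_PWT, without hypotheses.
-/

set_option autoImplicit false

namespace Pool.Agent.F5H.K2.H3

open Pool.Agent.F5H.K2.H30

theorem pwt0 : PWTStmt := pwt Pool.Agent.F5H.K2.H18.vkp Pool.Agent.F5H.K2.H30.due

end Pool.Agent.F5H.K2.H3
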